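import Pool.Agent.H9.K2.Defs2
import Pool.Agent.H73.KAF.RST

/-!
# Stabilisation: definitions (K2_STAB, pure part)

Events are sets of samples. A property of events is hereditary if it passes to smaller events; it is
stable on `A`, with freedom `ρ`, if it holds on `A` as soon as it holds on some `B ⊆ A` whose
conditional probability in `A` is at least `ρ`.
-/

set_option autoImplicit false

namespace Pool.K2S

open Finset Real
open Pool.Agent.H49.Ent Pool.Agent.H32.Dense Pool.STK Pool.KAF Pool.KA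

/-- Hereditary properties. -/
def Her {Ω : Type} (Q : Set Ω → Prop) : Prop := ∀ A B : Set Ω, B ⊆ A → Q A → Q B

/-- The property `Q` is stable on `A` with freedom `ρ`. -/
def Stab {Ω : Type} [Fintype Ω] (p : Ω → ℝ) (Q : Set Ω → Prop) (A : Set Ω) (ρ : ℝ) : Prop :=
  ∀ B ⊆ A, ρ * Pr p A ≤ Pr p B → Q B → Q A

/-- `c` is, up to the relation `r`, a function of `g` on the event. -/
def Fun {Ω S G : Type} (r : S → S → Prop) (c : Ω → S) (g : Ω → G) (A : Set Ω) : Prop :=
  ∃ ζ : G → S, ∀ ω ∈ A, r (c ω) (ζ (g ω))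

/-- There is a label, incident with the sample, which is a function of `g` and of `g'`. -/
def LabSS {Ω Y G G' : Type} (inc : Y → Ω → Prop) (g : Ω → G) (g' : Ω → G') (A : Set Ω) : Prop :=
  ∃ y : Ω → Y, (∀ ω ∈ A, inc (y ω) ω) ∧ (∃ ζ : G → Y, ∀ ω ∈ A, y ω = ζ (g ω)) ∧
    ∃ ζ' : G' → Y, ∀ ω ∈ A, y ω = ζ' (g' ω)

open Classical in
/-- The law of `n + 1` samples `w 0, .., w n`, conditionally independent given their common label
`g`. -/
noncomputable def cpn {Ω G : Type} [Fintype Ω] (p : Ω → ℝ) (g : Ω → G) (n : ℕ)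
    (w : Fin (n + 1) → Ω) : ℝ :=
  if ∀ i, g (w i) = g (w 0) then (∏ i, p (w i)) / law p g (g (w 0)) ^ n else 0

end Pool.K2S
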