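import Pool.Agent.H56.K2S.Defs

/-!
# Stabilisation: statements (K2_STAB, pure part)
-/

set_option autoImplicit false

namespace Pool.K2S

open Finset Real
open Pool.Agent.H49.Ent Pool.Agent.H32.Dense Pool.STK Pool.KAF Pool.KA

/-- (2.2.1) Stabilisation theorem. -/
def S221Stmt : Prop :=
  ∀ (Ω : Type) [Fintype Ω] (p : Ω → ℝ), IsLaw p → ∀ (M : ℕ) (Q : Fin M → Set Ω → Prop)
    (κ : ℕ → ℝ), (∀ i, Her (Q i)) → Antitone κ → 0 ≤ κ (M + 1) →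
    ∃ j ≤ M, ∃ A : Set Ω, Real.exp (-κ (j + 1)) ≤ Pr p A ∧
      (∀ i, Q i A ∨ ∀ B ⊆ A, Real.exp (-κ j) ≤ Pr p B → ¬ Q i B) ∧
      ∀ i, Stab p (Q i) A (Real.exp (-(κ j - κ (j + 1))))

/-- (2.2.3), (2.2.4) Cleaning and passing to large sub-events. -/
def S223Stmt : Prop :=
  ∀ (Ω : Type) [Fintype Ω] (p : Ω → ℝ), IsLaw p → ∀ (Q : Set Ω → Prop) (A B : Set Ω) (ρ α : ℝ),
    Her Q → Stab p Q A ρ → B ⊆ A → 0 < α → α * Pr p A ≤ Pr p B → Stab p Q B (ρ / α)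

/-- (2.3.1) Exact function, or exponentially nonatomic. -/
def S231Stmt : Prop :=
  ∀ (Ω S G : Type) [Fintype Ω] (p : Ω → ℝ), IsLaw p → ∀ (r : S → S → Prop) (c : Ω → S) (g : Ω → G)
    (A : Set Ω) (ρ : ℝ), 0 < Pr p A → 0 < ρ → (∀ s s', r s s' → r s' s) → Stab p (Fun r c g) A ρ →
    ¬ Fun r c g A →
    (∀ ζ : G → S, Pr (rs p A) {ω | r (c ω) (ζ (g ω))} < ρ) ∧
    Pr (cpy (rs p A) g) {w | r (c w.1) (c w.2)} < ρ ∧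
    ∃ N : Set Ω, (∀ ω ω', g ω = g ω' → ω ∈ N → ω' ∈ N) ∧ Pr (rs p A) N < Real.sqrt ρ ∧
      ∀ ω ∈ A, ω ∉ N → 0 < p ω → ∀ s, law (rs p A) (fun v => (r (c v) s, g v)) (True, g ω) ≤
        Real.sqrt ρ * law (rs p A) g (g ω)

/-- (2.3.2) Small entropy gives exact functions. -/
def S232Stmt : Prop :=
  ∀ (Ω S G : Type) [Fintype Ω] (p : Ω → ℝ), IsLaw p → ∀ (c : Ω → S) (g : Ω → G)
    (A B : Set Ω) (ρ α δ : ℝ), B ⊆ A → 0 < Pr p B → α * Pr p A ≤ Pr p B →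
    CH (rs p B) c g ≤ δ → ρ ≤ α * Real.exp (-δ) → Stab p (Fun Eq c g) A ρ → Fun Eq c g A

/-- (2.3.3) Several functions at once. -/
def S233Stmt : Prop :=
  ∀ (Ω : Type) [Fintype Ω] (n : ℕ) (S G : Fin n → Type) (p : Ω → ℝ), IsLaw p → 0 < n →
    ∀ (c : ∀ i, Ω → S i) (g : ∀ i, Ω → G i) (B : Set Ω) (δ : ℝ), 0 < Pr p B →
    (∀ i, CH (rs p B) (c i) (g i) ≤ δ) →
    ∃ B' ⊆ B, Real.exp (-(2 * (n : ℝ) ^ 2 * δ)) / 2 * Pr p B ≤ Pr p B' ∧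
      ∀ i, Fun Eq (c i) (g i) B'

/-- (2.3.4) Pairs and windows. -/
def S234Stmt : Prop :=
  ∀ (Ω S G : Type) [Fintype Ω] (p : Ω → ℝ), IsLaw p → ∀ (r : S → S → Prop) (c : Ω → S) (g : Ω → G)
    (B : Set Ω) (β : ℝ), 0 < Pr p B → 0 < β → β ≤ Pr (cpy (rs p B) g) {w | r (c w.1) (c w.2)} →
    (∃ ζ : G → S, β * Pr p B ≤ Pr p {ω | ω ∈ B ∧ r (c ω) (ζ (g ω))}) ∧
    ∀ (A : Set Ω) (ρ α : ℝ), B ⊆ A → α * Pr p A ≤ Pr p B → ρ ≤ α * β →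
      Stab p (Fun r c g) A ρ → Fun r c g A

/-- (2.3.4), version for relations which are not transitive: several partners. -/
def S235Stmt : Prop :=
  ∀ (Ω S G : Type) [Fintype Ω] (p : Ω → ℝ), IsLaw p → ∀ (r : S → S → Prop) (c : Ω → S) (g : Ω → G)
    (B : Set Ω) (β : ℝ) (n : ℕ) (E : Set (Fin (n + 1) → Ω)), 0 < Pr p B → 0 < β →
    β ≤ Pr (cpy (rs p B) g) {w | r (c w.1) (c w.2)} →
    Pr (cpn (rs p B) g n) E ≤ β ^ n / 2 →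
    ∃ ζ : G → Fin n → Ω, (∀ ω ∈ B, 0 < p ω → ∀ i, g (ζ (g ω) i) = g ω ∧ ζ (g ω) i ∈ B) ∧
      β ^ n / 2 * Pr p B ≤ Pr p {ω | ω ∈ B ∧ (∀ i, r (c ω) (c (ζ (g ω) i))) ∧
        Fin.cons ω (ζ (g ω)) ∉ E}

/-- (2.7.1) Production rule for labels. -/
def S271Stmt : Prop :=
  ∀ (Ω Y G G' : Type) [Fintype Ω] (p : Ω → ℝ), IsLaw p → ∀ (inc : Y → Ω → Prop) (y : Ω → Y)
    (g : Ω → G) (g' : Ω → G') (A B : Set Ω) (ρ α δ : ℝ), B ⊆ A → 0 < Pr p B →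
    α * Pr p A ≤ Pr p B → (∀ ω ∈ B, inc (y ω) ω) → CH (rs p B) y g ≤ δ → CH (rs p B) y g' ≤ δ →
    ρ ≤ α * (Real.exp (-(8 * δ)) / 2) → Stab p (LabSS inc g g') A ρ → LabSS inc g g' A

end Pool.K2S
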